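import Pool.Agent.Helper68.ES.St2

set_option autoImplicit false

namespace Pool.Agent.Helper20.ESX

theorem p_bd {p : ℝ} (h1 : 1 < p) (h : p ^ 2 + p = 3) : 13 / 10 < p ∧ p < 131 / 100 := by
  constructor <;> nlinarith

/-- products with `r ∈ [0.766, 0.77]` -/
theorem rprod {r z : ℝ} (hr1 : 766 / 1000 ≤ r) (hr2 : r ≤ 77 / 100) :
    (0 ≤ z ∧ 766 / 1000 * z ≤ r * z ∧ r * z ≤ 77 / 100 * z) ∨
    (z ≤ 0 ∧ 77 / 100 * z ≤ r * z ∧ r * z ≤ 766 / 1000 * z) := by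
  rcases le_total 0 z with h | h
  · exact Or.inl ⟨h, by nlinarith, by nlinarith⟩
  · exact Or.inr ⟨h, by nlinarith, by nlinarith⟩

theorem caseA (r R Y b ν L ρ x T K dT : ℝ) (hr1 : 766 / 1000 ≤ r) (hr2 : r ≤ 77 / 100)
    (h1 : 2 * L ≤ (2 * r - 1 + 3 / 1000) * ρ + R - r * R - b + 2 * Y - r * ν + 2 * x + K)
    (h2 : ρ ≤ R - b - L + K)
    (h3 : 2 * (r * R) + 2 * Y + 2 * b ≤ 2 * K - 2 * (r * ν))
    (h4 : L ≤ R - b + K) (hν : 0 ≤ ν) (hν1 : -b - dT - K ≤ ν) (hν2 : ν ≤ 0 ∨ ν ≤ -b)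
    (hdT : dT ≤ T / 1000) (hT : T = |R| + |Y| + |b|) (hx : 0 ≤ x) (hK : 0 ≤ K) :
    L ≤ ν - T / 100 + 100 * x + 100 * K := by
  have e1 : (2 * r - 1 + 3 / 1000) * ρ ≤ (2 * r - 1 + 3 / 1000) * (R - b - L + K) :=
    mul_le_mul_of_nonneg_left h2 (by linarith)
  have e2 : r * L ≤ r * R - r * b + r * K := by
    have := mul_le_mul_of_nonneg_left h4 (show 0 ≤ r by linarith)
    linarith [this, show r * (R - b + K) = r * R - r * b + r * K by ring]
  have e3 : r * K ≤ K := by nlinarith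
  have e4 : 0 ≤ r * K := by nlinarith
  have e1' : 2 * L ≤ 2 * (r * R) - 2 * (r * b) - 2 * (r * L) + 2 * (r * K) - (R - b - L + K) +
      3 / 1000 * (R - b - L + K) + R - r * R - b + 2 * Y - r * ν + 2 * x + K := by
    have : (2 * r - 1 + 3 / 1000) * (R - b - L + K) =
      2 * (r * R) - 2 * (r * b) - 2 * (r * L) + 2 * (r * K) - (R - b - L + K) +
      3 / 1000 * (R - b - L + K) := by ring
    linarith
  clear e1 h1
  have pR := rprod (z := R) hr1 hr2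
  have pb := rprod (z := b) hr1 hr2
  have pL := rprod (z := L) hr1 hr2
  have pν := rprod (z := ν) hr1 hr2
  generalize r * R = rR at *
  generalize r * b = rb at *
  generalize r * L = rL at *
  generalize r * ν = rν at *
  generalize r * K = rK at *
  subst hT
  by_contra hc
  push Not at hc
  rcases hν2 with g | g <;>
  rcases pν with ⟨a1, a2, a3⟩ | ⟨a1, a2, a3⟩ <;>
  rcases pR with ⟨b1, b2, b3⟩ | ⟨b1, b2, b3⟩ <;>
  rcases pb with ⟨c1, c2, c3⟩ | ⟨c1, c2, c3⟩ <;>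
  rcases pL with ⟨d1, d2, d3⟩ | ⟨d1, d2, d3⟩ <;>
  rcases le_total 0 Y with y1 | y1 <;>
  simp only [abs_of_nonneg, abs_of_nonpos, b1, c1, y1] at hc hdT <;>
  linarith

end Pool.Agent.Helper20.ESX
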